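import Pool.Agent.Run7.h724.ProM

/-!
# The joint law of the Kloosterman angles at the prime factors of a modulus and the signs of products
of Kloosterman sums over the extensions

From Mathlib: `Nat.primeFactorsList`, the increasing list of the prime factors; `Nat.primeFactors`,
the set of the prime factors; `GaloisField p m`, the field with `p ^ m` elements; `Algebra.trace`;
`ZMod.val`, the representative in `[0, p)`.

Method: by the Chinese remainder theorem `Kl_2(1; c)` is the product of the Kloosterman sums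
`K(1 / (c / p) ^ 2; p)` at the prime factors (`Pool.Agent.H442R2.KF.Weil`). The cosine is a uniform
limit of combinations of the signs of `cos (m θ)` (Moebius inversion of the square wave and
Davenport's bound), and the products `cos (m θ) cos θ` give all the powers of the cosine, so that
all products of continuous functions are approximated by combinations of products of signs; the
signs are those of the sums over the extensions, which do not vanish.
-/

set_option autoImplicit false

namespace Pool.Agent.Results.MP_4b8564_nt.SignsAtThePrimeFactors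

open Finset Filter Topology

/-- The sum `Kl_2(1; c)`: the sum of `cos (2 π (x + x̄) / c)` over the `x` modulo `c` prime to `c`,
divided by `√c`. -/
noncomputable def kl (c : ℕ) : ℝ := (Real.sqrt (c : ℝ))⁻¹ *
  ∑ x ∈ (Finset.range c).filter (fun x => Nat.Coprime x c),
    Real.cos (2 * Real.pi * (((x + ((x : ZMod c)⁻¹).val : ℕ) : ℝ)) / (c : ℝ))

/-- The angle `θ_{c,1}`, the arccosine of `2 ^ (-ω(c)) Kl_2(1; c)`. -/
noncomputable def theta (c : ℕ) : ℝ := Real.arccos (((2 : ℝ) ^ c.primeFactors.card)⁻¹ * kl c)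

/-- `S_k(N)`: the squarefree numbers `c ≤ N` with exactly `k` prime factors. -/
def moduli (k N : ℕ) : Finset ℕ :=
  (Finset.Icc 1 N).filter (fun c => Squarefree c ∧ c.primeFactors.card = k)

/-- The `i`-th prime factor of `c`, in increasing order, `i = 0, ..., k - 1`. -/
def factor (c i : ℕ) : ℕ := c.primeFactorsList.getD i 1

/-- The square of the integer `v` in `[0, p)` with `v (c / p) = 1` modulo `p`. -/
noncomputable def param (c p : ℕ) : ℤ := ((((c / p : ℕ) : ZMod p)⁻¹).val : ℤ) ^ 2

/-- The Kloosterman sum `S(a, 1; p)`. -/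
noncomputable def kloosterman (p : ℕ) (a : ℤ) : ℝ :=
  ∑ x ∈ Finset.Ico 1 p, Real.cos (2 * Real.pi *
    ((((a : ZMod p) * (x : ZMod p) + (x : ZMod p)⁻¹).val : ℕ) : ℝ) / (p : ℝ))

/-- The angle `θ` in `[0, π]` with `S(a, 1; p) = 2 √p cos θ` (for `p` not dividing `a`). -/
noncomputable def angle (p : ℕ) (a : ℤ) : ℝ :=
  Real.arccos (kloosterman p a / (2 * Real.sqrt (p : ℝ)))

/-- The Kloosterman sum `K_m(a; p)` over the field with `p ^ m` elements: the sum of
`cos (2 π Tr(a x + 1 / x) / p)` over the elements `x ≠ 0` of this field, where `Tr` is the trace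
to the field with `p` elements. (For `p` prime; otherwise `0`.) -/
noncomputable def kloostermanExt (p m : ℕ) (a : ℤ) : ℝ :=
  if h : p.Prime then
    haveI : Fact p.Prime := ⟨h⟩
    ∑ᶠ x : (GaloisField p m)ˣ, Real.cos (2 * Real.pi *
      ((Algebra.trace (ZMod p) (GaloisField p m)
        ((a : GaloisField p m) * (x : GaloisField p m) + (x : GaloisField p m)⁻¹)).val : ℝ) / (p : ℝ))
  else 0

/-- The angle `θ_i(c)` at the `i`-th prime factor `p` of `c`: the angle `θ_p(a)` for
`a = (c / p) ^ (-2)` modulo `p`. -/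
noncomputable def primeAngle (c i : ℕ) : ℝ := angle (factor c i) (param c (factor c i))

/-- The factor at the `i`-th prime factor `p` of `c`: `K_m(a; p)` for `a = (c / p) ^ (-2)` modulo
`p`, and `1` for `m = 0`. -/
noncomputable def primeSum (c i m : ℕ) : ℝ :=
  if m = 0 then 1 else kloostermanExt (factor c i) m (param c (factor c i))

/-- The joint law: for all continuous functions `f_0, ..., f_(k-1)` on `[0, π]`, the mean of
`∏ f_i(θ_i(c))` over `S_k(N)` tends to the product of the integrals of the `f_i` for the Sato-Tate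
measure. -/
def JointLaw (k : ℕ) : Prop :=
  ∀ f : Fin k → ℝ → ℝ, (∀ i, ContinuousOn (f i) (Set.Icc 0 Real.pi)) →
    Tendsto (fun N : ℕ => (∑ c ∈ moduli k N, ∏ i : Fin k, f i (primeAngle c i)) /
      ((moduli k N).card : ℝ)) atTop
      (𝓝 (∏ i : Fin k, ((2 / Real.pi) * ∫ u in (0 : ℝ)..Real.pi, f i u * Real.sin u ^ 2)))

/-- `φ(0) = 1`, `φ(2) = 2 / π`, and `φ(m) = 0` for the other `m`. -/
noncomputable def phi (m : ℕ) : ℝ := if m = 0 then 1 else if m = 2 then 2 / Real.pi else 0

open Classical in
/-- The law of the signs: for all `m_0, ..., m_(k-1) ≥ 0`, the proportion of the `c` in `S_k(N)` for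
which the product of the sums `K_{m_i}` at the prime factors with `m_i ≥ 1` is positive tends to
`(1 + ∏ φ(m_i)) / 2`. -/
def SignLaw (k : ℕ) : Prop :=
  ∀ m : Fin k → ℕ,
    Tendsto (fun N : ℕ =>
      (((moduli k N).filter fun c => 0 < ∏ i : Fin k, primeSum c i (m i)).card : ℝ) /
        ((moduli k N).card : ℝ)) atTop (𝓝 ((1 + ∏ i : Fin k, phi (m i)) / 2))

/-- The law of the problem for one `k`, as in the frozen statement. -/
def Equidistributed (k : ℕ) : Prop :=
  ∀ f : ℝ → ℝ, ContinuousOn f (Set.Icc 0 Real.pi) →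
    Tendsto (fun N : ℕ => (∑ c ∈ moduli k N, f (theta c)) / ((moduli k N).card : ℝ)) atTop
    (𝓝 (∫ θ in Set.univ.pi (fun _ : Fin k => Set.Icc (0 : ℝ) Real.pi),
        f (Real.arccos (∏ i, Real.cos (θ i))) * ∏ i, (2 / Real.pi * Real.sin (θ i) ^ 2)))

open Pool.Agent.Run7.h724

lemma theta_cos {c : ℕ} (hc : Squarefree c) :
    ((2 : ℝ) ^ c.primeFactors.card)⁻¹ * kl c =
      ∏ p ∈ c.primeFactors, Real.cos (angle p (param c p)) := ProL.cos_prod hc

lemma abs_prod_cos {κ : Type} (s : Finset κ) (g : κ → ℝ) :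
    ∏ i ∈ s, Real.cos (g i) ∈ Set.Icc (-1 : ℝ) 1 := by
  have h1 : |∏ i ∈ s, Real.cos (g i)| ≤ 1 := by
    rw [abs_prod]
    exact prod_le_one (fun i _ => abs_nonneg _) fun i _ => Real.abs_cos_le_one _
  rw [abs_le] at h1
  exact h1

lemma mem_moduli {k N c : ℕ} (h : c ∈ moduli k N) : Squarefree c ∧ c.primeFactors.card = k :=
  (mem_filter.1 h).2

lemma moduli_pos (k : ℕ) : ∀ᶠ N : ℕ in atTop, (0 : ℝ) < (moduli k N).card := by
  obtain ⟨s, hs, hk⟩ := Nat.infinite_setOfPred_prime.exists_subset_card_eq k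
  have hs' : ∀ p ∈ s, p.Prime := fun p hp => hs hp
  have hsq : Squarefree (∏ p ∈ s, p) := by
    refine Finset.squarefree_prod_of_pairwise_isCoprime (fun p hp q hq hpq => ?_)
      fun p hp => (hs' p hp).squarefree
    exact Nat.coprime_iff_isRelPrime.1 ((Nat.coprime_primes (hs' p hp) (hs' q hq)).2 hpq)
  filter_upwards [eventually_ge_atTop (∏ p ∈ s, p)] with N hN
  have : ∏ p ∈ s, p ∈ moduli k N := by
    unfold moduli
    rw [mem_filter, mem_Icc]
    refine ⟨⟨Nat.one_le_iff_ne_zero.2 hsq.ne_zero, hN⟩, hsq, ?_⟩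
    rw [Nat.primeFactors_prod hs', hk]
  exact_mod_cast card_pos.2 ⟨_, this⟩

lemma factor_mem {k N c : ℕ} (h : c ∈ moduli k N) (i : Fin k) : factor c i ∈ c.primeFactors :=
  ProL.pf_mem (mem_moduli h).1 (mem_moduli h).2 i

/-- the sign of one factor -/
noncomputable def eta (m : ℕ) : ℝ := if m = 0 then 1 else (-1) ^ (m + 1)

lemma eta_sq (m : ℕ) : eta m * eta m = 1 := by
  unfold eta
  split_ifs
  · norm_num
  · rw [← pow_add]
    exact Even.neg_one_pow ⟨m + 1, rfl⟩

lemma phi_eq (m : ℕ) : phi m = eta m * Pro.sM m := by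
  unfold phi eta Pro.sM Sign.sm
  split_ifs with h0 h2
  · norm_num
  · subst h2
    norm_num
  · rw [mul_zero]

lemma sign_one {k N c : ℕ} (h : c ∈ moduli k N) (i : Fin k) (m : ℕ) :
    Real.sign (primeSum c i m) = eta m * Pro.ss m (primeAngle c i) ∧ primeSum c i m ≠ 0 := by
  have hm := factor_mem h i
  have hp := Nat.prime_of_mem_primeFactors hm
  have hd := Nat.dvd_of_mem_primeFactors hm
  have : Fact (factor c i).Prime := ⟨hp⟩
  have hcop : Nat.Coprime (factor c i) (param c (factor c i)).natAbs :=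
    ProL.cop hp (ProL.cv_ne (mem_moduli h).1 hp hd)
  unfold primeSum eta Pro.ss
  split_ifs with h0
  · subst h0
    refine ⟨?_, one_ne_zero⟩
    rw [Nat.cast_zero, zero_mul, Real.cos_zero, Real.sign_one, one_mul]
  · exact ⟨Lift.lifted_sign hcop m (Nat.one_le_iff_ne_zero.2 h0),
      Lift.lifted_ne_zero hcop m (Nat.one_le_iff_ne_zero.2 h0)⟩

lemma rsign_mul (x y : ℝ) : Real.sign (x * y) = Real.sign x * Real.sign y := by
  rcases lt_trichotomy x 0 with hx | hx | hx <;> rcases lt_trichotomy y 0 with hy | hy | hy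
  · rw [Real.sign_of_neg hx, Real.sign_of_neg hy, Real.sign_of_pos (mul_pos_of_neg_of_neg hx hy)]
    norm_num
  · rw [hy, mul_zero, Real.sign_zero, mul_zero]
  · rw [Real.sign_of_neg hx, Real.sign_of_pos hy, Real.sign_of_neg (mul_neg_of_neg_of_pos hx hy)]
    norm_num
  · rw [hx, zero_mul, Real.sign_zero, zero_mul]
  · rw [hx, zero_mul, Real.sign_zero, zero_mul]
  · rw [hx, zero_mul, Real.sign_zero, zero_mul]
  · rw [Real.sign_of_pos hx, Real.sign_of_neg hy, Real.sign_of_neg (mul_neg_of_pos_of_neg hx hy)]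
    norm_num
  · rw [hy, mul_zero, Real.sign_zero, mul_zero]
  · rw [Real.sign_of_pos hx, Real.sign_of_pos hy, Real.sign_of_pos (mul_pos hx hy)]
    norm_num

lemma rsign_prod {κ : Type} [DecidableEq κ] (s : Finset κ) (e : κ → ℝ) :
    Real.sign (∏ i ∈ s, e i) = ∏ i ∈ s, Real.sign (e i) := by
  induction s using Finset.induction_on with
  | empty => rw [prod_empty, prod_empty, Real.sign_one]
  | insert a s ha ih => rw [prod_insert ha, prod_insert ha, rsign_mul, ih]

lemma sign_all {k N c : ℕ} (h : c ∈ moduli k N) (m : Fin k → ℕ) :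
    2 * (if 0 < ∏ i : Fin k, primeSum c i (m i) then (1 : ℝ) else 0) - 1 =
      (∏ i : Fin k, eta (m i)) * ∏ i : Fin k, Pro.ss (m i) (primeAngle c i) := by
  classical
  have h1 : Real.sign (∏ i : Fin k, primeSum c i (m i)) =
      (∏ i : Fin k, eta (m i)) * ∏ i : Fin k, Pro.ss (m i) (primeAngle c i) := by
    rw [rsign_prod, ← prod_mul_distrib]
    exact prod_congr rfl fun i _ => (sign_one h i (m i)).1
  have h2 : ∏ i : Fin k, primeSum c i (m i) ≠ 0 :=
    prod_ne_zero_iff.2 fun i _ => (sign_one h i (m i)).2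
  rw [← h1]
  rcases lt_or_gt_of_ne h2 with h3 | h3
  · rw [if_neg (not_lt.2 h3.le), Real.sign_of_neg h3]
    norm_num
  · rw [if_pos h3, Real.sign_of_pos h3]
    norm_num

/-- the two laws for signs -/
lemma sign_law (k : ℕ) :
    SignLaw k ↔ Pro.SLaw (moduli k) (fun c (i : Fin k) => primeAngle c i) := by
  classical
  unfold SignLaw Pro.SLaw
  refine forall_congr' fun m => ?_
  have hE : (∏ i : Fin k, eta (m i)) * (∏ i : Fin k, eta (m i)) = 1 := by
    rw [← prod_mul_distrib]
    exact prod_eq_one fun i _ => eta_sq (m i)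
  have hph : ∏ i : Fin k, phi (m i) = (∏ i : Fin k, eta (m i)) * ∏ i : Fin k, Pro.sM (m i) := by
    rw [← prod_mul_distrib]
    exact prod_congr rfl fun i _ => phi_eq (m i)
  have key : ∀ᶠ N : ℕ in atTop,
      (((moduli k N).filter fun c => 0 < ∏ i : Fin k, primeSum c i (m i)).card : ℝ) /
        ((moduli k N).card : ℝ) = (1 + (∏ i : Fin k, eta (m i)) *
        Pro.av (moduli k) (fun c => ∏ i : Fin k, Pro.ss (m i) (primeAngle c i)) N) / 2 := by
    filter_upwards [moduli_pos k] with N hN
    have h1 : ∑ c ∈ moduli k N,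
        (2 * (if 0 < ∏ i : Fin k, primeSum c i (m i) then (1 : ℝ) else 0) - 1) =
        ∑ c ∈ moduli k N, (∏ i : Fin k, eta (m i)) * ∏ i : Fin k, Pro.ss (m i) (primeAngle c i) :=
      sum_congr rfl fun c hc => sign_all hc m
    rw [sum_sub_distrib, ← mul_sum, ← mul_sum, sum_const, nsmul_eq_mul, mul_one] at h1
    unfold Pro.av
    rw [card_filter]
    push_cast
    field_simp
    linarith
  constructor
  · intro h
    have h2 : Tendsto (fun N => (1 + (∏ i : Fin k, eta (m i)) *
        Pro.av (moduli k) (fun c => ∏ i : Fin k, Pro.ss (m i) (primeAngle c i)) N) / 2) atTop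
        (𝓝 ((1 + ∏ i : Fin k, phi (m i)) / 2)) := h.congr' key
    have h3 := (((h2.const_mul 2).sub_const 1).const_mul (∏ i : Fin k, eta (m i)))
    have e1 : (∏ i : Fin k, eta (m i)) * (2 * ((1 + ∏ i : Fin k, phi (m i)) / 2) - 1) =
        ∏ i : Fin k, Pro.sM (m i) := by
      rw [hph]
      linear_combination (∏ i : Fin k, Pro.sM (m i)) * hE
    rw [e1] at h3
    refine h3.congr fun N => ?_
    linear_combination (Pro.av (moduli k) (fun c => ∏ i : Fin k, Pro.ss (m i) (primeAngle c i)) N) * hE
  · intro h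
    rw [hph]
    exact (((h.const_mul (∏ i : Fin k, eta (m i))).const_add 1).div_const 2).congr'
      (key.mono fun N hN => hN.symm)

lemma prime_prod {k N c : ℕ} (h : c ∈ moduli k N) :
    ∏ i : Fin k, Real.cos (primeAngle c i) =
      ∏ p ∈ c.primeFactors, Real.cos (angle p (param c p)) := by
  have h1 := ProL.pf_prod (mem_moduli h).1 (mem_moduli h).2
    (fun p => Real.cos (angle p (param c p)))
  rw [← h1]
  rfl

lemma mem_angle (c : ℕ) {k : ℕ} (i : Fin k) : primeAngle c i ∈ Set.Icc 0 Real.pi :=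
  ⟨Real.arccos_nonneg _, Real.arccos_le_pi _⟩

/-- Let `Kl_2(1; c)` be the Kloosterman sum modulo a squarefree number `c`, `θ_c` its angle,
`cos θ_c = 2 ^ (-ω(c)) Kl_2(1; c)`, and for a prime factor `p` of `c` let `θ_p` be the angle of the
Kloosterman sum `S(a, 1; p)` with `a = (c / p) ^ (-2)` modulo `p`. Then `cos θ_c = ∏ cos θ_p`. For
`k ≥ 1` the angles at the `k` prime factors of `c`, where `c` runs over the squarefree numbers
`c ≤ N` with `k` prime factors, are asymptotically independent and distributed by the Sato-Tate law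
if and only if for all `m_0, ..., m_(k-1) ≥ 0` the proportion of the `c` such that the product of the
Kloosterman sums `K_{m_i}(a_i; p_i)` over the fields with `p_i ^ m_i` elements (over the `i` with
`m_i ≥ 1`) is positive tends to `(1 + ∏ φ(m_i)) / 2`, where `φ(0) = 1`, `φ(2) = 2 / π` and
`φ(m) = 0` for the other `m`. Then the law of the problem holds for this `k`. For `k = 1` the three
laws are equivalent. -/
theorem result :
    (∀ c : ℕ, Squarefree c →
      Real.cos (theta c) = ((2 : ℝ) ^ c.primeFactors.card)⁻¹ * kl c ∧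
      Real.cos (theta c) = ∏ p ∈ c.primeFactors, Real.cos (angle p (param c p))) ∧
    (∀ k : ℕ, 1 ≤ k → (JointLaw k ↔ SignLaw k) ∧ (SignLaw k → Equidistributed k)) ∧
    (Equidistributed 1 ↔ SignLaw 1) := by
  have hA : ∀ k : ℕ, JointLaw k ↔ SignLaw k := by
    intro k
    rw [sign_law]
    constructor
    · intro h
      exact Pro.signs_of_law (fun c i => mem_angle c i) h
    · intro h
      exact Pro.law_of_signs (fun c i => mem_angle c i) h
  have hth : ∀ c : ℕ, Squarefree c → theta c =
      Real.arccos (∏ p ∈ c.primeFactors, Real.cos (angle p (param c p))) := by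
    intro c hc
    unfold theta
    rw [theta_cos hc]
  have hB : ∀ k : ℕ, SignLaw k → Equidistributed k := by
    intro k h f hf
    have h1 : Pro.Law (moduli k) (fun c (i : Fin k) => primeAngle c i) := (hA k).2 h
    have h2 := ProM.law_arccos h1 hf
    refine h2.congr fun N => ?_
    unfold Pro.av
    congr 1
    refine sum_congr rfl fun c hc => ?_
    rw [hth c (mem_moduli hc).1, ← prime_prod hc]
  refine ⟨fun c hc => ?_, fun k _ => ⟨hA k, hB k⟩, ?_, hB 1⟩
  · have h1 : Real.cos (theta c) = ∏ p ∈ c.primeFactors, Real.cos (angle p (param c p)) := by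
      have h2 := abs_prod_cos c.primeFactors (fun p => angle p (param c p))
      rw [hth c hc, Real.cos_arccos h2.1 h2.2]
    exact ⟨h1.trans (theta_cos hc).symm, h1⟩
  · intro h
    rw [← hA 1]
    intro f hf
    have h1 := h (f 0) (hf 0)
    rw [Fin.prod_univ_one]
    have e1 : ∫ θ in Set.univ.pi (fun _ : Fin 1 => Set.Icc (0 : ℝ) Real.pi),
        f 0 (Real.arccos (∏ i, Real.cos (θ i))) * ∏ i, (2 / Real.pi * Real.sin (θ i) ^ 2) =
        (2 / Real.pi) * ∫ u in (0 : ℝ)..Real.pi, f 0 u * Real.sin u ^ 2 := by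
      have h3 := ProM.box_II (k := 1) (fun _ u => f 0 u)
      rw [Fin.prod_univ_one] at h3
      refine Eq.trans ?_ h3
      refine MeasureTheory.setIntegral_congr_fun
        (MeasurableSet.univ_pi fun _ => measurableSet_Icc) fun t ht => ?_
      have h4 := ht 0 (Set.mem_univ _)
      simp only [Fin.prod_univ_one]
      rw [Real.arccos_cos h4.1 h4.2]
    rw [e1] at h1
    refine h1.congr fun N => ?_
    congr 1
    refine sum_congr rfl fun c hc => ?_
    have h5 := mem_angle c (0 : Fin 1)
    rw [Fin.prod_univ_one, hth c (mem_moduli hc).1, ← prime_prod hc, Fin.prod_univ_one,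
      Real.arccos_cos h5.1 h5.2]

end Pool.Agent.Results.MP_4b8564_nt.SignsAtThePrimeFactors
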